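import Mathlib
import Pool.Agent.Helper159.ET.Defs
import Pool.Agent.Helper436.SM.ExR

set_option autoImplicit false

open scoped InnerProductSpace Topology ComplexOrder
open Filter

namespace Pool.Agent.Helper945.ET

open Pool.Agent.Helper278 Pool.Agent.Helper436.SM Pool.Agent.Helper436.SM.ExR
open Pool.Agent.Helper159.ET

/-- the strings supported in `[0, n)` -/
noncomputable def Fn (n : ℕ) : Finset VV :=
  (Finset.univ : Finset (Fin n → ZMod 2 × ZMod 2)).image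
    (fun a => ∑ i : Fin n, Finsupp.single (i : ℕ) (a i))

noncomputable def Wn (v : VV) : Elt NP := ⟨Wo v, Wo_mem v⟩

noncomputable def E (n : ℕ) : Elt NP →ₗ[ℂ] Elt NP :=
  ∑ v ∈ Fn n, ((TP.τ ∘ₗ LinearMap.mulLeft ℂ (star (Wn v))).smulRight (Wn v))

theorem mem_Fn (n : ℕ) (v : VV) : v ∈ Fn n ↔ ∀ i, n ≤ i → v i = 0 := by
  unfold Fn
  rw [Finset.mem_image]
  constructor
  · rintro ⟨a, -, rfl⟩ i hi
    rw [Finsupp.finset_sum_apply]
    refine Finset.sum_eq_zero fun j _ => ?_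
    rw [Finsupp.single_apply, if_neg]
    have := j.2
    omega
  · intro h
    refine ⟨fun i => v i, Finset.mem_univ _, ?_⟩
    ext1 j
    rw [Finsupp.finset_sum_apply]
    by_cases hj : j < n
    · rw [Finset.sum_eq_single ⟨j, hj⟩]
      · simp
      · intro b _ hb
        rw [Finsupp.single_apply, if_neg]
        intro hbj
        exact hb (Fin.ext hbj)
      · intro hn
        exact absurd (Finset.mem_univ _) hn
    · rw [h j (by omega)]
      refine Finset.sum_eq_zero fun i _ => ?_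
      rw [Finsupp.single_apply, if_neg]
      have := i.2
      omega

theorem E_apply (n : ℕ) (x : Elt NP) :
    E n x = ∑ v ∈ Fn n, TP.τ (star (Wn v) * x) • Wn v := by
  unfold E
  rw [LinearMap.sum_apply]
  rfl

theorem tau_star_mul (x y : Elt NP) : TP.τ (star x * y) =
    ⟪(x : EllTwo VV →L[ℂ] EllTwo VV) (bb 0), (y : EllTwo VV →L[ℂ] EllTwo VV) (bb 0)⟫_ℂ := by
  rw [← ContinuousLinearMap.adjoint_inner_right, ← ContinuousLinearMap.star_eq_adjoint]
  rfl

theorem Wn_bb (v : VV) : ((Wn v : Elt NP) : EllTwo VV →L[ℂ] EllTwo VV) (bb 0) = bb v := Wo_bb v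

theorem tau_W_mul (v : VV) (x : Elt NP) : TP.τ (star (Wn v) * x) =
    ⟪bb v, (x : EllTwo VV →L[ℂ] EllTwo VV) (bb 0)⟫_ℂ := by
  rw [tau_star_mul, Wn_bb]

theorem inner_bb_bb (v w : VV) : ⟪bb v, bb w⟫_ℂ = if v = w then 1 else 0 := by
  rw [coef_bb, bb_apply]

theorem coe_sum (s : Finset VV) (c : VV → ℂ) :
    ((∑ v ∈ s, c v • Wn v : Elt NP) : EllTwo VV →L[ℂ] EllTwo VV) =
      ∑ v ∈ s, c v • Wo v := by
  rw [AddSubmonoidClass.coe_finsetSum]
  rfl

theorem E_bb (n : ℕ) (x : Elt NP) : ((E n x : Elt NP) : EllTwo VV →L[ℂ] EllTwo VV) (bb 0) =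
    ∑ v ∈ Fn n, ⟪bb v, (x : EllTwo VV →L[ℂ] EllTwo VV) (bb 0)⟫_ℂ • bb v := by
  rw [E_apply, coe_sum, ContinuousLinearMap.sum_apply]
  refine Finset.sum_congr rfl fun v _ => ?_
  rw [tau_W_mul]
  show (⟪bb v, (x : EllTwo VV →L[ℂ] EllTwo VV) (bb 0)⟫_ℂ : ℂ) • (Wo v (bb 0)) = _
  rw [Wo_bb]

theorem norm2_eq (x : Elt NP) : norm2 (fun x => TP.τ x) x =
    ‖(x : EllTwo VV →L[ℂ] EllTwo VV) (bb 0)‖ := by
  unfold norm2
  show Real.sqrt (TP.τ (star x * x)).re = _
  rw [tau_star_mul, inner_self_eq_norm_sq_to_K]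
  have h : ((‖(x : EllTwo VV →L[ℂ] EllTwo VV) (bb 0)‖ : ℂ) ^ 2).re =
      ‖(x : EllTwo VV →L[ℂ] EllTwo VV) (bb 0)‖ ^ 2 := by
    rw [← Complex.ofReal_pow, Complex.ofReal_re]
  refine (congrArg Real.sqrt h).trans ?_
  exact Real.sqrt_sq (norm_nonneg _)

theorem zero_mem_Fn (n : ℕ) : (0 : VV) ∈ Fn n := (mem_Fn n 0).2 fun _ _ => rfl

theorem E_one (n : ℕ) : E n 1 = 1 := by
  rw [E_apply, Finset.sum_eq_single 0]
  · rw [tau_W_mul]
    have h1 : ((1 : Elt NP) : EllTwo VV →L[ℂ] EllTwo VV) (bb 0) = bb 0 := rfl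
    rw [h1, inner_bb_bb, if_pos rfl, one_smul]
    apply Subtype.ext
    exact Wo_zero
  · intro v _ hv
    rw [tau_W_mul]
    have h1 : ((1 : Elt NP) : EllTwo VV →L[ℂ] EllTwo VV) (bb 0) = bb 0 := rfl
    rw [h1, inner_bb_bb, if_neg hv, zero_smul]
  · intro h
    exact absurd (zero_mem_Fn n) h

theorem tau_eq (x : Elt NP) : TP.τ x =
    ⟪bb 0, (x : EllTwo VV →L[ℂ] EllTwo VV) (bb 0)⟫_ℂ := rfl

theorem E_trace (n : ℕ) (x : Elt NP) : TP.τ (E n x) = TP.τ x := by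
  rw [tau_eq (E n x), E_bb, inner_sum, Finset.sum_eq_single 0]
  · rw [inner_smul_right, inner_bb_bb, if_pos rfl, mul_one]
    rfl
  · intro v _ hv
    rw [inner_smul_right, inner_bb_bb, if_neg (Ne.symm hv), mul_zero]
  · intro h
    exact absurd (zero_mem_Fn n) h

theorem norm_bb (v : VV) : ‖bb v‖ = 1 := bb.orthonormal.1 v

theorem E_compact (n : ℕ) : IsL2Compact NP (fun x => TP.τ x) (E n) := by
  classical
  intro ε hε
  set ε' : ℝ := ε / ((Fn n).card + 1) with hε'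
  have hpos : 0 < ε' := by positivity
  obtain ⟨t, ht, hcov⟩ := Metric.totallyBounded_iff.1
    (isCompact_closedBall (0 : ℂ) 1).totallyBounded ε' hpos
  set D : Finset ℂ := ht.toFinset with hD
  refine ⟨(Fintype.piFinset (fun _ : {v // v ∈ Fn n} => D)).image
    (fun c => ∑ v : {v // v ∈ Fn n}, c v • Wn v), ?_⟩
  intro x hx
  rw [norm2_eq] at hx
  have hc : ∀ v : VV, ‖TP.τ (star (Wn v) * x)‖ ≤ 1 := by
    intro v
    rw [tau_W_mul]
    refine (norm_inner_le_norm _ _).trans ?_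
    rw [norm_bb, one_mul]
    exact hx
  have hex : ∀ v : {v // v ∈ Fn n}, ∃ d ∈ D, dist (TP.τ (star (Wn v) * x)) d < ε' := by
    intro v
    have h1 : TP.τ (star (Wn v) * x) ∈ Metric.closedBall (0 : ℂ) 1 := by
      rw [mem_closedBall_zero_iff]
      exact hc v
    have h2 := hcov h1
    simp only [Set.mem_iUnion, Metric.mem_ball] at h2
    obtain ⟨d, hd, hdist⟩ := h2
    exact ⟨d, ht.mem_toFinset.2 hd, hdist⟩
  choose d hd hdist using hex
  refine ⟨∑ v : {v // v ∈ Fn n}, d v • Wn v, ?_, ?_⟩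
  · rw [Finset.mem_image]
    exact ⟨d, Fintype.mem_piFinset.2 hd, rfl⟩
  · rw [norm2_eq]
    have h1 : E n x - ∑ v : {v // v ∈ Fn n}, d v • Wn v =
        ∑ v : {v // v ∈ Fn n}, (TP.τ (star (Wn v) * x) - d v) • Wn v := by
      rw [E_apply, ← Finset.sum_coe_sort (Fn n) (fun v => TP.τ (star (Wn v) * x) • Wn v),
        ← Finset.sum_sub_distrib]
      refine Finset.sum_congr rfl fun v _ => ?_
      rw [sub_smul]
    rw [h1, AddSubmonoidClass.coe_finsetSum, ContinuousLinearMap.sum_apply]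
    have h2 : ∀ v : {v // v ∈ Fn n}, ‖(((TP.τ (star (Wn v) * x) - d v) • Wn v : Elt NP) :
        EllTwo VV →L[ℂ] EllTwo VV) (bb 0)‖ ≤ ε' := by
      intro v
      have h3 : (((TP.τ (star (Wn v) * x) - d v) • Wn v : Elt NP) :
        EllTwo VV →L[ℂ] EllTwo VV) (bb 0) = (TP.τ (star (Wn v) * x) - d v) • bb (v : VV) := by
        show (TP.τ (star (Wn v) * x) - d v : ℂ) • (Wo (v : VV) (bb 0)) = _
        rw [Wo_bb]
      rw [h3, norm_smul, norm_bb, mul_one, ← dist_eq_norm]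
      exact (hdist v).le
    calc _ ≤ ∑ v : {v // v ∈ Fn n}, ε' := norm_sum_le_of_le _ fun v _ => h2 v
      _ = (Fn n).card * ε' := by
        rw [Finset.sum_const, nsmul_eq_mul, Finset.card_univ, Fintype.card_coe]
      _ < ((Fn n).card + 1) * ε' := by
        have : (0 : ℝ) ≤ (Fn n).card := Nat.cast_nonneg _
        nlinarith
      _ = ε := by
        rw [hε']
        field_simp

theorem Fn_tendsto : Tendsto Fn atTop atTop := by
  apply tendsto_atTop_finset_of_monotone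
  · intro m n hmn v hv
    rw [mem_Fn] at hv ⊢
    intro i hi
    exact hv i (hmn.trans hi)
  · intro v
    refine ⟨v.support.sup id + 1, ?_⟩
    rw [mem_Fn]
    intro i hi
    by_contra h
    have h1 : i ∈ v.support := Finsupp.mem_support_iff.2 h
    have h2 : i ≤ v.support.sup id := Finset.le_sup (f := id) h1
    omega

theorem E_tendsto (x : Elt NP) :
    Tendsto (fun n => norm2 (fun x => TP.τ x) (E n x - x)) atTop (𝓝 0) := by
  have h1 : Tendsto (fun n => ∑ v ∈ Fn n,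
      ⟪bb v, (x : EllTwo VV →L[ℂ] EllTwo VV) (bb 0)⟫_ℂ • bb v) atTop
      (𝓝 ((x : EllTwo VV →L[ℂ] EllTwo VV) (bb 0))) := by
    have h2 := bb.hasSum_repr ((x : EllTwo VV →L[ℂ] EllTwo VV) (bb 0))
    have h3 : HasSum (fun v => ⟪bb v, (x : EllTwo VV →L[ℂ] EllTwo VV) (bb 0)⟫_ℂ • bb v)
        ((x : EllTwo VV →L[ℂ] EllTwo VV) (bb 0)) := by
      refine h2.congr_fun ?_
      intro v
      rw [bb.repr_apply_apply]
    rw [HasSum, SummationFilter.unconditional_filter] at h3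
    have h6 := h3.comp Fn_tendsto
    exact h6
  have h4 : ∀ n, norm2 (fun x => TP.τ x) (E n x - x) = ‖(∑ v ∈ Fn n,
      ⟪bb v, (x : EllTwo VV →L[ℂ] EllTwo VV) (bb 0)⟫_ℂ • bb v) -
      (x : EllTwo VV →L[ℂ] EllTwo VV) (bb 0)‖ := by
    intro n
    rw [norm2_eq, ← E_bb]
    rfl
  simp only [h4]
  have h5 := tendsto_iff_norm_sub_tendsto_zero.1 h1
  exact h5

end Pool.Agent.Helper945.ET
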