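import Mathlib
import Pool.Agent.Helper945.ET.HaagE

set_option autoImplicit false

open scoped InnerProductSpace Topology ComplexOrder
open Filter

namespace Pool.Agent.Helper945.ET

open Pool.Agent.Helper278 Pool.Agent.Helper436.SM Pool.Agent.Helper436.SM.ExR
open Pool.Agent.Helper159.ET

/-- the compressions -/
noncomputable def Vw (n : ℕ) (w : VV) (f : EllTwo VV) : EllTwo VV :=
  ∑ a ∈ Fn n, (sg (bf (a + w) w) * f (a + w)) • bb a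

theorem Fn_add (n : ℕ) {a b : VV} (ha : a ∈ Fn n) (hb : b ∈ Fn n) : a + b ∈ Fn n := by
  rw [mem_Fn] at *
  intro i hi
  rw [Finsupp.add_apply, ha i hi, hb i hi, add_zero]

theorem add_add_cancel' (a b : VV) : a + (a + b) = b := by
  rw [← add_assoc, VV_add_self, zero_add]

theorem sum_shift (n : ℕ) {a' : VV} (ha' : a' ∈ Fn n) (φ : VV → ℂ) :
    ∑ a ∈ Fn n, φ (a' + a) = ∑ v ∈ Fn n, φ v := by
  refine Finset.sum_nbij' (fun a => a' + a) (fun v => a' + v) ?_ ?_ ?_ ?_ ?_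
  · intro a ha; exact Fn_add n ha' ha
  · intro v hv; exact Fn_add n ha' hv
  · intro a _; exact add_add_cancel' a' a
  · intro v _; exact add_add_cancel' a' v
  · intro a _; rfl

theorem coef_mat (x : Elt NP) (a' a : VV) :
    ⟪bb a', (x : EllTwo VV →L[ℂ] EllTwo VV) (bb a)⟫_ℂ =
      sg (bf (a' + a) a) * ⟪bb (a' + a), (x : EllTwo VV →L[ℂ] EllTwo VV) (bb 0)⟫_ℂ := by
  rw [apply_bb _ x.2, coef_bb, Ro_apply, coef_bb]

theorem conj_sg (a : ZMod 2) : (starRingEnd ℂ) (sg a) = sg a := ExR.star_sg a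

theorem V_inner (n : ℕ) (x : Elt NP) (g f : EllTwo VV) (w : VV) :
    ⟪Vw n w g, (x : EllTwo VV →L[ℂ] EllTwo VV) (Vw n w f)⟫_ℂ =
      ∑ a' ∈ Fn n, ∑ a ∈ Fn n,
        (starRingEnd ℂ (sg (bf (a' + w) w) * g (a' + w))) * ((sg (bf (a + w) w) * f (a + w)) *
        (sg (bf (a' + a) a) * ⟪bb (a' + a), (x : EllTwo VV →L[ℂ] EllTwo VV) (bb 0)⟫_ℂ)) := by
  unfold Vw
  rw [sum_inner]
  refine Finset.sum_congr rfl fun a' _ => ?_
  rw [inner_smul_left, map_sum, inner_sum, Finset.mul_sum]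
  refine Finset.sum_congr rfl fun a _ => ?_
  rw [map_smul, inner_smul_right, coef_mat]

theorem hasSum_pair (g f : EllTwo VV) (a' a : VV) (c : ℂ) :
    HasSum (fun w : VV => (starRingEnd ℂ (sg (bf (a' + w) w) * g (a' + w))) *
      ((sg (bf (a + w) w) * f (a + w)) * (sg (bf (a' + a) a) * c)))
      (c * ⟪g, Wo (a' + a) f⟫_ℂ) := by
  have h1 := lp.hasSum_inner (𝕜 := ℂ) g (Wo (a' + a) f)
  have h2 := ((Equiv.addRight a').hasSum_iff (f := fun i => ⟪g i, (Wo (a' + a) f) i⟫_ℂ)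
    (a := ⟪g, Wo (a' + a) f⟫_ℂ)).2 h1
  have h3 := h2.mul_left c
  refine h3.congr_fun ?_
  intro w
  show _ = c * ⟪g (w + a'), (Wo (a' + a) f) (w + a')⟫_ℂ
  rw [Wo_apply]
  have e1 : w + a' + (a' + a) = a + w := by
    rw [show w + a' + (a' + a) = w + (a' + (a' + a)) by rw [add_assoc], add_add_cancel',
      add_comm]
  rw [e1, add_comm w a']
  have e2 : ⟪g (a' + w), sg (bf (a' + a) (a + w)) * f (a + w)⟫_ℂ =
      starRingEnd ℂ (g (a' + w)) * (sg (bf (a' + a) (a + w)) * f (a + w)) := by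
    rw [← smul_eq_mul, ← smul_eq_mul, inner_smul_right]
    simp only [smul_eq_mul]
    rw [RCLike.inner_apply]
    ring
  rw [e2, map_mul, conj_sg]
  have e3 : sg (bf (a' + w) w) * sg (bf (a + w) w) * sg (bf (a' + a) a) =
      sg (bf (a' + a) (a + w)) := by
    rw [← ExR.sg_add, ← ExR.sg_add]
    congr 1
    simp only [ExR.bf_add_left, ExR.bf_add_right]
    have h4 : bf w w + bf w w = 0 := CharTwo.add_self_eq_zero _
    linear_combination h4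
  rw [← e3]
  ring

theorem key (n : ℕ) (x : Elt NP) (g f : EllTwo VV) :
    HasSum (fun w : VV => ⟪Vw n w g, (x : EllTwo VV →L[ℂ] EllTwo VV) (Vw n w f)⟫_ℂ)
      ((Fn n).card * ⟪g, ((E n x : Elt NP) : EllTwo VV →L[ℂ] EllTwo VV) f⟫_ℂ) := by
  have h1 : HasSum (fun w : VV => ∑ a' ∈ Fn n, ∑ a ∈ Fn n,
        (starRingEnd ℂ (sg (bf (a' + w) w) * g (a' + w))) * ((sg (bf (a + w) w) * f (a + w)) *
        (sg (bf (a' + a) a) * ⟪bb (a' + a), (x : EllTwo VV →L[ℂ] EllTwo VV) (bb 0)⟫_ℂ)))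
      (∑ a' ∈ Fn n, ∑ a ∈ Fn n, ⟪bb (a' + a), (x : EllTwo VV →L[ℂ] EllTwo VV) (bb 0)⟫_ℂ *
        ⟪g, Wo (a' + a) f⟫_ℂ) :=
    hasSum_sum fun a' _ => hasSum_sum fun a _ => hasSum_pair g f a' a _
  have h2 : (∑ a' ∈ Fn n, ∑ a ∈ Fn n, ⟪bb (a' + a), (x : EllTwo VV →L[ℂ] EllTwo VV) (bb 0)⟫_ℂ *
        ⟪g, Wo (a' + a) f⟫_ℂ) =
      (Fn n).card * ⟪g, ((E n x : Elt NP) : EllTwo VV →L[ℂ] EllTwo VV) f⟫_ℂ := by
    have h3 : ∀ a' ∈ Fn n, (∑ a ∈ Fn n,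
        ⟪bb (a' + a), (x : EllTwo VV →L[ℂ] EllTwo VV) (bb 0)⟫_ℂ * ⟪g, Wo (a' + a) f⟫_ℂ) =
        ⟪g, ((E n x : Elt NP) : EllTwo VV →L[ℂ] EllTwo VV) f⟫_ℂ := by
      intro a' ha'
      rw [sum_shift n ha' (fun v => ⟪bb v, (x : EllTwo VV →L[ℂ] EllTwo VV) (bb 0)⟫_ℂ *
        ⟪g, Wo v f⟫_ℂ), E_apply, coe_sum, ContinuousLinearMap.sum_apply, inner_sum]
      refine Finset.sum_congr rfl fun v _ => ?_
      rw [ContinuousLinearMap.smul_apply, inner_smul_right, tau_W_mul]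
    rw [Finset.sum_congr rfl h3, Finset.sum_const, nsmul_eq_mul]
  rw [← h2]
  refine h1.congr_fun ?_
  intro w
  exact V_inner n x g f w

theorem card_pos' (n : ℕ) : (0 : ℝ) < (Fn n).card := by
  exact_mod_cast Finset.card_pos.2 ⟨0, zero_mem_Fn n⟩

theorem E_cp (n : ℕ) : IsCP NP (E n) := by
  intro k a ξ
  have h1 : HasSum (fun w : VV => ∑ i, ∑ j, ⟪Vw n w (ξ i),
      ((star (a i) * a j : Elt NP) : EllTwo VV →L[ℂ] EllTwo VV) (Vw n w (ξ j))⟫_ℂ)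
      (∑ i, ∑ j, ((Fn n).card * ⟪ξ i, ((E n (star (a i) * a j) : Elt NP) :
        EllTwo VV →L[ℂ] EllTwo VV) (ξ j)⟫_ℂ)) :=
    hasSum_sum fun i _ => hasSum_sum fun j _ => key n _ _ _
  have h2 : ∀ w : VV, (0 : ℂ) ≤ ∑ i, ∑ j, ⟪Vw n w (ξ i),
      ((star (a i) * a j : Elt NP) : EllTwo VV →L[ℂ] EllTwo VV) (Vw n w (ξ j))⟫_ℂ := by
    intro w
    have h3 : (∑ i, ∑ j, ⟪Vw n w (ξ i),
      ((star (a i) * a j : Elt NP) : EllTwo VV →L[ℂ] EllTwo VV) (Vw n w (ξ j))⟫_ℂ) =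
      ⟪∑ i, (a i : EllTwo VV →L[ℂ] EllTwo VV) (Vw n w (ξ i)),
        ∑ j, (a j : EllTwo VV →L[ℂ] EllTwo VV) (Vw n w (ξ j))⟫_ℂ := by
      rw [sum_inner]
      refine Finset.sum_congr rfl fun i _ => ?_
      rw [inner_sum]
      refine Finset.sum_congr rfl fun j _ => ?_
      rw [← ContinuousLinearMap.adjoint_inner_right, ← ContinuousLinearMap.star_eq_adjoint]
      rfl
    rw [h3, inner_self_eq_norm_sq_to_K]
    have h4 : (0 : ℝ) ≤ ‖∑ j, (a j : EllTwo VV →L[ℂ] EllTwo VV) (Vw n w (ξ j))‖ ^ 2 := sq_nonneg _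
    have h5 : (0 : ℂ) ≤ ((‖∑ j, (a j : EllTwo VV →L[ℂ] EllTwo VV) (Vw n w (ξ j))‖ ^ 2 : ℝ) : ℂ) :=
      Complex.zero_le_real.2 h4
    rw [Complex.ofReal_pow] at h5
    exact h5
  have h6 : (0 : ℂ) ≤ (∑ i, ∑ j, ((Fn n).card * ⟪ξ i, ((E n (star (a i) * a j) : Elt NP) :
        EllTwo VV →L[ℂ] EllTwo VV) (ξ j)⟫_ℂ)) := h1.nonneg h2
  have h7 : (∑ i, ∑ j, ((Fn n).card * ⟪ξ i, ((E n (star (a i) * a j) : Elt NP) :
        EllTwo VV →L[ℂ] EllTwo VV) (ξ j)⟫_ℂ)) = ((Fn n).card : ℂ) * ∑ i, ∑ j,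
        ⟪ξ i, ((E n (star (a i) * a j) : Elt NP) : EllTwo VV →L[ℂ] EllTwo VV) (ξ j)⟫_ℂ := by
    rw [Finset.mul_sum]
    refine Finset.sum_congr rfl fun i _ => ?_
    rw [Finset.mul_sum]
  rw [h7] at h6
  have hK := card_pos' n
  have hc : (0 : ℂ) ≤ ((((Fn n).card : ℝ)⁻¹ : ℝ) : ℂ) := Complex.zero_le_real.2 (inv_nonneg.2 hK.le)
  have h9 := mul_nonneg hc h6
  have h10 : ((((Fn n).card : ℝ)⁻¹ : ℝ) : ℂ) * ((Fn n).card : ℂ) = 1 := by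
    have h11 : (((Fn n).card : ℝ)⁻¹) * ((Fn n).card : ℝ) = 1 := inv_mul_cancel₀ hK.ne'
    exact_mod_cast h11
  rw [← mul_assoc, h10, one_mul] at h9
  exact h9

theorem E_normal (n : ℕ) : IsNormalMap NP (E n) := by
  intro ξ
  obtain ⟨e⟩ : Nonempty (ℕ ≃ VV) := by
    have : Countable VV := by unfold VV; infer_instance
    have : Infinite VV := by unfold VV; infer_instance
    exact nonempty_equiv_of_countable
  have hK := card_pos' n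
  set r : ℝ := (Real.sqrt (Fn n).card)⁻¹ with hr
  have hr2 : (r : ℂ) * r * ((Fn n).card : ℂ) = 1 := by
    have h1 : r * r * (Fn n).card = 1 := by
      rw [hr, ← mul_inv, Real.mul_self_sqrt hK.le]
      field_simp
    exact_mod_cast h1
  have hk : ∀ x : Elt NP, HasSum (fun k : ℕ => ⟪(r : ℂ) • Vw n (e k) ξ,
      (x : EllTwo VV →L[ℂ] EllTwo VV) ((r : ℂ) • Vw n (e k) ξ)⟫_ℂ)
      ⟪ξ, ((E n x : Elt NP) : EllTwo VV →L[ℂ] EllTwo VV) ξ⟫_ℂ := by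
    intro x
    have h1 := (e.hasSum_iff (f := fun w : VV => ⟪Vw n w ξ,
      (x : EllTwo VV →L[ℂ] EllTwo VV) (Vw n w ξ)⟫_ℂ)
      (a := ((Fn n).card * ⟪ξ, ((E n x : Elt NP) : EllTwo VV →L[ℂ] EllTwo VV) ξ⟫_ℂ))).2
      (key n x ξ ξ)
    have h2 := h1.mul_left ((r : ℂ) * r)
    rw [← mul_assoc, hr2, one_mul] at h2
    refine h2.congr_fun ?_
    intro k
    show _ = (r : ℂ) * r * ⟪Vw n (e k) ξ, (x : EllTwo VV →L[ℂ] EllTwo VV) (Vw n (e k) ξ)⟫_ℂ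
    rw [map_smul, inner_smul_left, inner_smul_right, Complex.conj_ofReal]
    ring
  refine ⟨fun k => (r : ℂ) • Vw n (e k) ξ, ?_, ?_⟩
  · have h1 := (hk 1).summable
    have h2 := Complex.hasSum_re (hk 1)
    refine h2.summable.congr ?_
    intro k
    show (⟪(r : ℂ) • Vw n (e k) ξ, (r : ℂ) • Vw n (e k) ξ⟫_ℂ).re = ‖(r : ℂ) • Vw n (e k) ξ‖ ^ 2
    rw [inner_self_eq_norm_sq_to_K]
    have h3 : ((‖(r : ℂ) • Vw n (e k) ξ‖ : ℂ) ^ 2).re = ‖(r : ℂ) • Vw n (e k) ξ‖ ^ 2 := by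
      rw [← Complex.ofReal_pow, Complex.ofReal_re]
    exact h3
  · intro x
    exact (hk x).tsum_eq.symm

theorem haagerup_NP : HasHaagerup NP (fun x => TP.τ x) :=
  ⟨E, fun n => ⟨E_cp n, E_normal n, E_one n, E_trace n, E_compact n⟩, E_tendsto⟩

end Pool.Agent.Helper945.ET
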